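import Mathlib

set_option autoImplicit false

namespace Pool.Agent.Results.MP_a699c4_gt.Veronese

open Set Metric Real
open scoped Manifold RealInnerProductSpace ContDiff

abbrev E (n : ℕ) : Type := EuclideanSpace ℝ (Fin n)

/-- The component of `w` tangent to the unit sphere at the point `p`. -/
noncomputable def tang {n : ℕ} (p w : E n) : E n := w - ⟪p, w⟫ • p

/-- A geodesic of the round unit sphere: a twice differentiable curve on it with zero covariant acceleration. -/
def IsGeodesic {n : ℕ} (γ : ℝ → E n) : Prop :=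
  ContDiff ℝ 2 γ ∧ (∀ t, ‖γ t‖ = 1) ∧ ∀ t, tang (γ t) (deriv (deriv γ) t) = 0

/-- Vanishing of the tension field of a map between round unit spheres: at every point `x`, the
covariant accelerations of the images of the great circles through `x` in the directions of an
orthonormal frame `e` of the tangent space add up to zero. -/
def TensionZero {k n : ℕ} (φ : sphere (0 : E (k + 1)) 1 → sphere (0 : E (n + 1)) 1) : Prop :=
  ∀ (x : sphere (0 : E (k + 1)) 1) (e : Fin k → E (k + 1)), Orthonormal ℝ e →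
    (∀ i, ⟪(x : E (k + 1)), e i⟫ = 0) →
    ∀ c : Fin k → ℝ → sphere (0 : E (k + 1)) 1,
      (∀ i t, (c i t : E (k + 1)) = cos t • (x : E (k + 1)) + sin t • e i) →
      ∑ i, tang (φ x : E (n + 1)) (deriv (deriv fun t => (φ (c i t) : E (n + 1))) 0) = 0

noncomputable def B (x y : E 3) : E 5 :=
  !₂[√3 / 2 * (x 0 * y 1 + x 1 * y 0), √3 / 2 * (x 0 * y 2 + x 2 * y 0),
    √3 / 2 * (x 1 * y 2 + x 2 * y 1), √3 / 2 * (x 0 * y 0 - x 1 * y 1),
    (x 0 * y 0 + x 1 * y 1 - 2 * x 2 * y 2) / 2]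

lemma inB (x y : E 3) : ⟪B x x, B y y⟫ = (3 * ⟪x, y⟫ ^ 2 - ‖x‖ ^ 2 * ‖y‖ ^ 2) / 2 := by
  have h : √3 ^ 2 = 3 := sq_sqrt (by norm_num)
  simp only [B, PiLp.inner_apply, EuclideanSpace.real_norm_sq_eq, Fin.sum_univ_succ]
  simp
  linear_combination (x 0 * x 1 * (y 0 * y 1) + x 0 * x 2 * (y 0 * y 2) + x 1 * x 2 * (y 1 * y 2) +
    (x 0 * x 0 - x 1 * x 1) * (y 0 * y 0 - y 1 * y 1) / 4) * h

lemma nB (x : sphere (0 : E 3) 1) : B x x ∈ sphere (0 : E 5) 1 := by
  have := inB x x
  simp only [real_inner_self_eq_norm_sq, norm_eq_of_mem_sphere x] at this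
  rw [mem_sphere_zero_iff_norm, ← pow_eq_one_iff_of_nonneg (norm_nonneg _) two_ne_zero, this]
  norm_num

noncomputable def φ (x : sphere (0 : E 3) 1) : sphere (0 : E 5) 1 := ⟨B x x, nB x⟩

lemma dd (a b c : E 5) :
    deriv (deriv fun t => cos (2 * t) • a + sin (2 * t) • b + c) 0 = -(4 : ℝ) • a := by
  have h1 : ∀ t, HasDerivAt (fun t => cos (2 * t)) (-2 * sin (2 * t)) t := fun t => by
    exact ((hasDerivAt_id' t).const_mul 2).cos.congr_deriv (by ring)
  have h2 : ∀ t, HasDerivAt (fun t => sin (2 * t)) (2 * cos (2 * t)) t := fun t => by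
    exact ((hasDerivAt_id' t).const_mul 2).sin.congr_deriv (by ring)
  rw [funext fun t => ((((h1 t).smul_const a).fun_add ((h2 t).smul_const b)).add_const c).deriv,
    ((((h2 0).const_mul (-2)).smul_const a).fun_add (((h1 0).const_mul 2).smul_const b)).deriv]
  simp
  norm_num

lemma geo {n : ℕ} {γ : ℝ → E n} (h : IsGeodesic γ) (hl : ∀ t, -1 < ⟪γ 0, γ t⟫) (t : ℝ) :
    γ t = γ 0 := by
  obtain ⟨h1, h2, h3⟩ := h
  have d1 : ∀ t, HasDerivAt γ (deriv γ t) t := fun t =>
    (h1.differentiable (by simp) t).hasDerivAt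
  have d2 : ∀ t, HasDerivAt (deriv γ) (deriv (deriv γ) t) t := fun t =>
    (h1.differentiable_deriv_two t).hasDerivAt
  have a1 : ∀ t, ⟪γ t, deriv γ t⟫ = 0 := fun t => by
    have := (d1 t).inner ℝ (d1 t)
    simp only [real_inner_self_eq_norm_sq, h2] at this
    linarith [this.unique (hasDerivAt_const t _), real_inner_comm (γ t) (deriv γ t)]
  have a2 : ∀ t, deriv (deriv γ) t = -‖deriv γ t‖ ^ 2 • γ t := fun t => by
    have := (d1 t).inner ℝ (d2 t)
    simp only [a1, real_inner_self_eq_norm_sq] at this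
    rw [sub_eq_zero.1 (h3 t)]
    congr 1
    linarith [this.unique (hasDerivAt_const t _)]
  have a3 : ∀ t, ‖deriv γ t‖ ^ 2 = ‖deriv γ 0‖ ^ 2 := fun t => by
    have : ∀ t, HasDerivAt (fun t => ⟪deriv γ t, deriv γ t⟫) 0 t := fun t => by
      refine ((d2 t).inner ℝ (d2 t)).congr_deriv ?_
      rw [a2, inner_smul_left, inner_smul_right, real_inner_comm, a1]
      simp
    simpa using is_const_of_deriv_eq_zero (fun t => (this t).differentiableAt)
      (fun t => (this t).deriv) t 0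
  set c := ‖deriv γ 0‖
  by_cases hc : c = 0
  · exact is_const_of_deriv_eq_zero (fun t => (d1 t).differentiableAt)
      (fun t => by simpa [hc] using a3 t) t 0
  have b : ∀ t, HasDerivAt (fun t => (⟪γ 0, deriv γ t⟫ + c * sin (c * t)) ^ 2 +
      c ^ 2 * (⟪γ 0, γ t⟫ - cos (c * t)) ^ 2) 0 t := fun t => by
    have e1 := (hasDerivAt_const t (γ 0)).inner ℝ (d1 t)
    have e2 := (hasDerivAt_const t (γ 0)).inner ℝ (d2 t)
    have e3 := (hasDerivAt_id' t).const_mul c
    refine (((e2.add (e3.sin.const_mul c)).pow 2).add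
      (((e1.sub e3.cos).pow 2).const_mul (c ^ 2))).congr_deriv ?_
    simp [a2, a3, inner_smul_right]
    ring
  have := is_const_of_deriv_eq_zero (fun t => (b t).differentiableAt) (fun t => (b t).deriv)
    (π / c) 0
  simp only [mul_div_cancel₀ _ hc, a1, real_inner_self_eq_norm_sq, h2] at this
  simp at this
  nlinarith [hl (π / c), sq_nonneg ⟪γ 0, deriv γ (π / c)⟫, mul_pos (sq_pos_of_ne_zero hc)
    (sq_pos_of_pos (show 0 < ⟪γ 0, γ (π / c)⟫ + 1 by linarith [hl (π / c)]))]

/-- A non-constant harmonic map from the round 2-sphere to the round 4-sphere whose image contains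
no non-constant geodesic of the 4-sphere. -/
theorem result :
    ∃ φ : sphere (0 : E 3) 1 → sphere (0 : E 5) 1, ContMDiff (𝓡 2) (𝓡 4) ∞ φ ∧
      TensionZero (k := 2) (n := 4) φ ∧ (∃ x y, φ x ≠ φ y) ∧
      ∀ γ : ℝ → E 5, IsGeodesic γ → (∀ t, ∃ x, (φ x : E 5) = γ t) → ∀ t, γ t = γ 0 := by
  refine ⟨φ, ?_, fun x e he hx c hc => ?_, ⟨⟨.single 0 1, by simp⟩, ⟨.single 2 1, by simp⟩,
    fun h => ?_⟩, fun γ hγ h => geo hγ fun t => ?_⟩
  · have hB : ContDiff ℝ ∞ fun x : E 3 => B x x := by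
      refine contDiff_euclidean.2 fun i => ?_
      fin_cases i <;> simp [B] <;> fun_prop
    have := Fact.mk (finrank_euclideanSpace_fin (𝕜 := ℝ) (n := 2 + 1))
    have := Fact.mk (finrank_euclideanSpace_fin (𝕜 := ℝ) (n := 4 + 1))
    exact (hB.contMDiff.comp contMDiff_coe_sphere).codRestrict_sphere nB
  · have h1 : ∀ i, (fun t => (φ (c i t) : E 5)) = fun t => cos (2 * t) • ((1 / 2 : ℝ) •
        (B x x - B (e i) (e i))) + sin (2 * t) • B x (e i) +
        (1 / 2 : ℝ) • (B x x + B (e i) (e i)) := fun i => by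
      ext t j
      fin_cases j <;> simp [φ, hc, B, cos_two_mul, sin_two_mul] <;> ring_nf <;>
        simp only [sin_sq] <;> ring
    have h2 : B x x + B (e 0) (e 0) + B (e 1) (e 1) = 0 := by
      have n1 := norm_eq_of_mem_sphere x
      rw [← inner_self_eq_zero (𝕜 := ℝ)]
      simp only [inner_add_left, inner_add_right, inB]
      simp only [real_inner_self_eq_norm_sq, n1, he.1, hx, fun i => real_inner_comm (x : E 3) (e i),
        he.2 (show (0 : Fin 2) ≠ 1 by simp),
        he.2 (show (1 : Fin 2) ≠ 0 by simp)]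
      norm_num
    have h3 : ⟪B x x, B x x⟫ = 1 := by
      rw [inB]; simp; norm_num
    have h4 : ∀ i, ⟪B x x, B (e i) (e i)⟫ = -1 / 2 := fun i => by
      simp [inB, he.1, hx]
    change ∑ i, tang (B x x) (deriv (deriv fun t => (φ (c i t) : E 5)) 0) = 0
    simp only [h1, dd, tang, Fin.sum_univ_two, inner_smul_right, inner_sub_right, h3, h4]
    linear_combination (norm := module) (2 : ℝ) • h2
  · have := congrArg (fun v : sphere (0 : E 5) 1 => (v : E 5) 4) h
    simp [φ, B] at this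
    norm_num at this
  · obtain ⟨x, hx⟩ := h 0
    obtain ⟨y, hy⟩ := h t
    rw [← hx, ← hy]
    simp only [φ, inB, norm_eq_of_mem_sphere]
    nlinarith [sq_nonneg ⟪(x : E 3), (y : E 3)⟫]

end Pool.Agent.Results.MP_a699c4_gt.Veronese
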